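import Pool.Agent.Helper2.NNP.Stm
import Pool.Agent.H376R2.MR.Selw

/-!
Part SEL: Selberg's weights, from the file of the project MR.
-/

set_option autoImplicit false

namespace Pool.Agent.Helper80.NNP

open Finset Pool.Agent.Helper2.NNP

/-- part SEL -/
theorem t_SEL : S_SEL := by
  refine ⟨1, one_pos, fun D hD => ?_⟩
  obtain ⟨l, h1, h2, -, -, h3, h4⟩ := Pool.Agent.H376R2.MR.sel_weights D hD
  exact ⟨l, h1, h2, h3, h4⟩

end Pool.Agent.Helper80.NNP
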